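import Pool.Agent.W5h46.HL.Loc
import Pool.Agent.R349.Generic

/-!
# Digamma values, Hurwitz and Lerch zeta values at almost all rational numbers

For a rational number `x = p / q > 0` the numbers `ψ(x) + γ`, the Hurwitz zeta values `ζ(k, x) = ∑_{n ≥ 0} 1 / (n + x)^k`,
`k ≥ 2`, and, for algebraic `c` outside of `[1, ∞)`, the integrals
`L_k(c, x) = ∫_0^1 t^(x-1) (log t)^k / (1 - c t) dt`, `k ≥ 0`, are periods. For `|c| < 1` the last number is `(-1)^k k!` times
the value `∑_{n ≥ 0} c^n / (n + x)^(k+1)` of Lerch's zeta function. They are linear combinations of polylogarithms at the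
`q`-th roots of unity and at the numbers `ζ c^(1/q)`, `ζ^q = 1`: periods of mixed Tate motives whose level grows with the
denominator of `x`.

We show that for almost all tuples `(x_1, …, x_n)` of rational numbers (or of elements of number fields of bounded degree)
of height at most `T` ALL these numbers together, for all `k ≤ w` and any given different `c_1, …, c_r`, satisfy no polynomial
relation of bounded degree, not even approximately, relative to arbitrary constants (for instance relative to other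
periods). In the starting results on almost all points the arguments of the polylogarithms are the rational numbers
themselves; values at roots of unity, Hurwitz and Lerch zeta values are not treated.

The proof uses the general theorems of the starting files on functions of one variable which are locally algebraically
independent (`Pool.Agent.Y771.RP.mainX`, `Pool.Agent.R349.Gen.shortG`). New is the independence, a theorem of the type of
Hölder's theorem on the gamma function: functions with `λ_i F_(i,k)(x + 1) = F_(i,k)(x) - c_(i,k) x^(-k-1)`, with different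
`λ_i ≠ 0` and `c_(i,k) ≠ 0`, are algebraically independent over the rational functions (`Pool.Agent.W5h46.HL.indep`). A
relation of least degree with the least number of terms of highest degree is an eigenvector of the shift; partial
derivatives give a linear eigenvector, that is, a rational solution of a difference equation of the first order, which is
excluded by its poles.
-/

set_option autoImplicit false

open NumberField MeasureTheory Filter Topology

namespace Pool.Agent.W5h46.Old.HurwitzLerch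

/-- `ψ(x) + γ` for `k = 0`, and the Hurwitz zeta value `ζ(k + 1, x) = ∑_n 1 / (n + x)^(k+1)` for `k ≥ 1` -/
noncomputable def H (k : ℕ) (x : ℂ) : ℂ :=
  if k = 0 then Complex.digamma x + Real.eulerMascheroniConstant else ∑' n : ℕ, 1 / ((n : ℂ) + x) ^ (k + 1)

/-- `∫_0^1 t^(x-1) (log t)^k / (1 - c t) dt` -/
noncomputable def L (c : ℂ) (k : ℕ) (x : ℂ) : ℂ :=
  ∫ t in Set.Ioc (0 : ℝ) 1, (t : ℂ) ^ (x - 1) * (Real.log t : ℂ) ^ k / (1 - c * t)

/-- The `(r + 1) w` numbers `ψ(x) + γ`, `ζ(2, x)`, …, `ζ(w, x)` and `L_k(c_i, x)`, `i = 1, …, r`, `k = 0, …, w - 1`. -/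
noncomputable def numbers {r w : ℕ} (c : Fin r → ℂ) (x : ℂ) (y : Option (Fin r) × Fin w) : ℂ :=
  y.1.elim (H y.2 x) fun i => L (c i) y.2 x

/-- The element `x` of `F` is a quotient of integers all of whose conjugates have absolute value at most `T`. -/
def HeightLe (F : Type) [Field F] [NumberField F] (T : ℝ) (x : F) : Prop :=
  ∃ a b : 𝓞 F, b ≠ 0 ∧ (∀ φ : F →+* ℂ, ‖φ a‖ ≤ T ∧ ‖φ b‖ ≤ T) ∧ x = a / b

/-- The polynomials of degree at most `d` in each variable, all of whose coefficients are of the form `∑ ξ_i ι(c_i)`, where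
the `c_i` are integers of the number field `F` all of whose conjugates have absolute value at most `M`. -/
def Admissible {σ : Type} {g : ℕ} (F : Type) [Field F] [NumberField F] (ι : F →+* ℂ) (ξ : Fin g → ℂ) (d : ℕ) (M : ℝ)
    (P : MvPolynomial σ ℂ) : Prop :=
  (∀ y, P.degreeOf y ≤ d) ∧
    ∀ s, ∃ c : Fin g → 𝓞 F, (∀ i (φ : F →+* ℂ), ‖φ (c i)‖ ≤ M) ∧ P.coeff s = ∑ i, ξ i * ι (c i)

/-- The complex numbers `v` are good: every admissible polynomial takes at them a value which is at least `δ` times each of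
its coefficients. -/
def Good {σ : Type} {g : ℕ} (F : Type) [Field F] [NumberField F] (ι : F →+* ℂ) (ξ : Fin g → ℂ) (d : ℕ)
    (M δ : ℝ) (v : σ → ℂ) : Prop :=
  ∀ P : MvPolynomial σ ℂ, Admissible F ι ξ d M P → ∀ s, δ * ‖P.coeff s‖ ≤ ‖MvPolynomial.aeval v P‖

/-- The number of the tuples `x` in `X_1 × … × X_n` for which the `(r + 1) w n` numbers `numbers c_j x_j` are not good. -/
noncomputable def bad {n r g : ℕ} (w : ℕ) (c : Fin n → Fin r → ℂ) (F : Type) [Field F] [NumberField F] (ι : F →+* ℂ)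
    (ξ : Fin g → ℂ) (d : ℕ) (M δ : ℝ) (X : Fin n → Finset F) : ℝ :=
  ({x : Fin n → F | (∀ j, x j ∈ X j) ∧ ¬ Good F ι ξ d M δ
    (fun z : Fin n × (Option (Fin r) × Fin w) => numbers (c z.1) (ι (x z.1)) z.2)}.ncard : ℝ)

/-- Let `c_{j,1}, …, c_{j,r}` be, for each `j = 1, …, n`, different complex numbers which are not `0` and not in `[1, ∞)`,
and let `K` be a compact subset of the half plane `Re x > 0`. For all `w`, `m`, `g`, `d`, `A` and `ε > 0` there are `B`, `C`,
`T₀` such that for every number field `F` of degree at most `m`, every embedding `ι` of `F`, all complex numbers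
`ξ_1, …, ξ_g`, all `T ≥ T₀` and all finite sets `X_1, …, X_n` of elements of `F` of height at most `T` with images in `K`:
for all but `C T^ε ∑_j ∏_(i ≠ j) |X_i|` of the tuples `x` of `X_1 × … × X_n` the `(r + 1) w n` numbers `ψ(x_j) + γ`,
`ζ(k, x_j)` (`2 ≤ k ≤ w`) and `L_k(c_{j,i}, x_j)` (`0 ≤ k < w`) are good; if the sets `X_j` have diameters at most `T^(-ε)`
then this is true for all but `C ∑_j ∏_(i ≠ j) |X_i|` tuples. -/
theorem result (n r w m g d : ℕ) (c : Fin n → Fin r → ℂ) (hinj : ∀ j, Function.Injective (c j))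
    (hc : ∀ j i, c j i ≠ 0 ∧ ¬ ((c j i).im = 0 ∧ 1 ≤ (c j i).re)) (K : Set ℂ) (hK : IsCompact K)
    (hKs : ∀ x ∈ K, 0 < x.re) (A ε : ℝ) (hε : 0 < ε) :
    ∃ B C T₀ : ℝ, ∀ (F : Type) [Field F] [NumberField F], Module.finrank ℚ F ≤ m →
      ∀ (ι : F →+* ℂ) (ξ : Fin g → ℂ) (T : ℝ), T₀ ≤ T → ∀ X : Fin n → Finset F,
        (∀ j, ∀ x ∈ X j, ι x ∈ K ∧ HeightLe F T x) →
        bad w c F ι ξ d (T ^ A) (T ^ (-B)) X ≤ C * T ^ ε * ∑ j, ∏ i ∈ Finset.univ.erase j, ((X i).card : ℝ) ∧
        ((∀ j, ∀ x ∈ X j, ∀ y ∈ X j, ‖ι x - ι y‖ ≤ T ^ (-ε)) →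
          bad w c F ι ξ d (T ^ A) (T ^ (-B)) X ≤ C * ∑ j, ∏ i ∈ Finset.univ.erase j, ((X i).card : ℝ)) := by
  have hc1 : ∀ j i, ∀ t : ℝ, t ∈ Set.Icc (0 : ℝ) 1 → 1 - c j i * t ≠ 0 := by
    intro j i t ht h
    have h1 : c j i * t = 1 := by linear_combination -h
    have ht0 : t ≠ 0 := by
      rintro rfl
      simp at h1
    have htp : 0 < t := lt_of_le_of_ne ht.1 (Ne.symm ht0)
    have htc : (t : ℂ) ≠ 0 := by exact_mod_cast ht0
    have h2 : c j i = ((t⁻¹ : ℝ) : ℂ) := by
      rw [Complex.ofReal_inv]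
      exact eq_inv_of_mul_eq_one_left h1
    refine (hc j i).2 ⟨by rw [h2, Complex.ofReal_im], ?_⟩
    rw [h2, Complex.ofReal_re]
    exact (one_le_inv₀ htp).2 ht.2
  have hL : ∀ (c : ℂ) (k : ℕ) (x : ℂ), L c k x = mellin (W5h46.MT.lf k (W5h46.HL.fc c)) x := by
    intro c k x
    have h1 : ∀ t : ℝ, (t : ℂ) ^ (x - 1) • W5h46.MT.lf k (W5h46.HL.fc c) t =
        (Set.Ioc (0 : ℝ) 1).indicator (fun t : ℝ => (t : ℂ) ^ (x - 1) * (Real.log t : ℂ) ^ k / (1 - c * t)) t := by
      intro t
      simp only [W5h46.MT.lf, W5h46.HL.fc, smul_eq_mul]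
      by_cases ht : t ∈ Set.Ioc (0 : ℝ) 1
      · rw [Set.indicator_of_mem ht, Set.indicator_of_mem ht, div_eq_mul_inv]
        ring
      · rw [Set.indicator_of_notMem ht, Set.indicator_of_notMem ht]
        ring
    rw [mellin, integral_congr_ae (Eventually.of_forall h1), setIntegral_indicator measurableSet_Ioc,
      Set.inter_eq_self_of_subset_right Set.Ioc_subset_Ioi_self, L]
  have hnum : ∀ (j : Fin n) (x : ℂ) (y : Option (Fin r) × Fin w), numbers (c j) x y = W5h46.HL.ff (c j) y x := by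
    intro j x y
    rcases y with ⟨_ | i, k⟩
    · by_cases hk : (k : ℕ) = 0
      · simp [numbers, W5h46.HL.ff, H, hk, W5h46.HL.dgm]
      · simp [numbers, W5h46.HL.ff, H, hk, W5h46.HL.hz]
    · exact hL _ _ _
  set φ : Fin n → Option (Fin r) × Fin w → ℂ → ℂ := fun j y => W5h46.HL.ff (c j) y with hφ
  have han : ∀ j y, ∀ t ∈ K, AnalyticAt ℂ (φ j y) t := fun j y t ht => W5h46.HL.ff_an (c j) (hc1 j) y (hKs t ht)
  have hli : ∀ j, ∀ t ∈ K, Y124.LocInd (φ j) t := fun j t ht =>
    W5h46.HL.ff_locInd (c j) (hc1 j) (hinj j) (fun i => (hc j i).1) t (hKs t ht)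
  obtain ⟨B1, C1, T1, hC1, hT1, H1⟩ := Y771.RP.mainX m n g d φ (fun _ => K) (fun _ => hK) (fun j y t ht => han j y t ht)
    (fun j t ht => hli j t ht) A ε hε
  obtain ⟨B2, C2, T2, H2⟩ := R349.Gen.shortG m n g d φ K hK han hli A ε hε
  refine ⟨max B1 B2, max C1 C2, max 2 (max T1 T2), fun F _ _ hF ι ξ T hT X hX => ?_⟩
  have hT2 : 2 ≤ T := (le_max_left _ _).trans hT
  have hTT1 : T1 ≤ T := ((le_max_left _ _).trans (le_max_right _ _)).trans hT
  have hTT2 : T2 ≤ T := ((le_max_right _ _).trans (le_max_right _ _)).trans hT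
  have hT1' : 1 ≤ T := by linarith
  have hT0 : 0 < T := by linarith
  have hfinX : {x : Fin n → F | ∀ j, x j ∈ X j}.Finite := by
    refine (Finset.finite_toSet (Fintype.piFinset X)).subset fun x hx => ?_
    rw [Finset.mem_coe, Fintype.mem_piFinset]
    exact hx
  have hval : ∀ x : Fin n → F, (fun z : Fin n × (Option (Fin r) × Fin w) => numbers (c z.1) (ι (x z.1)) z.2) =
      fun z : Fin n × (Option (Fin r) × Fin w) => φ z.1 z.2 (ι (x z.1)) := by
    intro x
    funext z
    rw [hnum]
  have hS : 0 ≤ ∑ j, ∏ i ∈ Finset.univ.erase j, ((X i).card : ℝ) :=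
    Finset.sum_nonneg fun j _ => Finset.prod_nonneg fun i _ => Nat.cast_nonneg _
  have hMg : Y124.MgR X = ∑ j, ∏ i ∈ Finset.univ.erase j, ((X i).card : ℝ) := by
    unfold Y124.MgR
    refine Finset.sum_congr rfl fun j _ => ?_
    rw [← Finset.mul_prod_erase Finset.univ _ (Finset.mem_univ j), if_pos rfl, one_mul]
    refine Finset.prod_congr rfl fun i hi => ?_
    rw [if_neg (Finset.ne_of_mem_erase hi)]
  constructor
  · have h1 := H1 F hF ι ξ T hTT1 X (fun j x hx => ⟨(hX j x hx).1, (hX j x hx).2⟩)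
    rw [hMg] at h1
    refine le_trans ?_ (h1.trans (mul_le_mul_of_nonneg_right (mul_le_mul_of_nonneg_right (le_max_left _ _)
      (Real.rpow_nonneg hT0.le _)) hS))
    unfold bad
    refine Nat.cast_le.2 (Set.ncard_le_ncard ?_ (hfinX.subset fun x hx => hx.2))
    rintro x ⟨hx, hb⟩
    rw [hval] at hb
    unfold Good at hb
    push Not at hb
    obtain ⟨P, ⟨hP1, hP2⟩, s, hs⟩ := hb
    have hle : T ^ (-(max B1 B2)) ≤ T ^ (-B1) := Real.rpow_le_rpow_of_exponent_le hT1' (neg_le_neg (le_max_left _ _))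
    refine ⟨⟨fun j => ⟨(hX j _ (hx j)).1, (hX j _ (hx j)).2⟩, P, hP1, hP2, s, ?_, ?_⟩, hx⟩
    · intro h0
      rw [h0, norm_zero, mul_zero] at hs
      exact absurd hs (not_lt.2 (norm_nonneg _))
    · exact hs.le.trans (mul_le_mul_of_nonneg_right hle (norm_nonneg _))
  · intro hdiam
    have h1 := (H2 F hF ι ξ T hTT2 X (fun j x hx => ⟨(hX j x hx).1, (hX j x hx).2⟩) hdiam).1
    refine le_trans ?_ (h1.trans (mul_le_mul_of_nonneg_right (le_max_right _ _) hS))
    unfold bad
    refine Nat.cast_le.2 (Set.ncard_le_ncard ?_ (hfinX.subset fun x hx => hx.1))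
    rintro x ⟨hx, hb⟩
    refine ⟨hx, fun hg => hb ?_⟩
    rw [hval]
    intro P hP s
    refine le_trans ?_ (hg.1 P hP s)
    exact mul_le_mul_of_nonneg_right (Real.rpow_le_rpow_of_exponent_le hT1' (neg_le_neg (le_max_right _ _)))
      (norm_nonneg _)

end Pool.Agent.W5h46.Old.HurwitzLerch
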